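import Mathlib
import Pool.Agent.Run7.h162.Main

/-!
# The equality problem is undecidable in `M(n)` for all `n ≥ 3`

For every field `F` of characteristic zero and every `n ≥ 3` there is no algorithm which decides
whether a quasi-identity holds in all algebras of the variety `M(n)` generated by the algebra of
`n × n` matrices. More precisely there is one finite set of equations between monomials
(independent of `F` and `n`), and a computable sequence of equations between monomials, such that
it is undecidable for every `F` and `n ≥ 3` which equations of the sequence follow in `M(n)` from
the finite set; so one finitely presented algebra of `M(n)` has an undecidable word problem.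

Proof. A machine with one register and instructions (if `B` divides `x` replace `x` by `s x / B` and
go to `q'`, otherwise go to `q''`) with undecidable halting problem is simulated by words
`e y^m g z^n f`; the relations are `y^B q = q z`, `e q = e a`, `a z = y^s a`, `a f = q' f`,
`e y^k q = e y^k r` for `0 < k < B`, `r z = y^B r`, `r f = q'' f`, `y H = H`. Conversely the
functional on the free algebra which is one on the words `e y^m g z^n f` that encode a
configuration from which the machine stops, and zero on all other words, respects the relations;
it factors through the `3 × 3` matrices over a commutative algebra given by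
`e = ε E₀₁`, `y = Y E₁₁`, `g = t_g E₁₂`, `z = Z E₂₂`, `f = E₂₀`, `ε² = 0`, so that the quotient of
the free algebra by the greatest ideal in the kernel of the functional belongs to `M(3)`.

Definitions: `Pool/Agent/Run7/h162/Defs.lean`.
-/

set_option autoImplicit false

namespace Pool.Agent.Results.MP_79b5eb_lc.MatrixVarieties

open Run7.h162.EqPb

universe u

/-- **The equality problem in `M(n)` is undecidable for all `n ≥ 3`**, already for quasi-identities
with a fixed list `R` of premises. -/
theorem result :
    (∀ (F : Type u) [Field F] [CharZero F] (n : ℕ), 3 ≤ n →
      ¬ ComputablePred fun Q : QuasiIdentity => HoldsInM F n Q) ∧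
    ∃ (R : List QPoly) (w : ℕ → QPoly), Computable w ∧
      ∀ (F : Type u) [Field F] [CharZero F] (n : ℕ), 3 ≤ n →
        ¬ ComputablePred fun k : ℕ => HoldsInM F n (R, w k) := by
  obtain ⟨R, w, hw, h⟩ := Run7.h162.Main.matrix_main.{u}
  refine ⟨fun F _ _ n hn hc => h F n hn ?_, R, w, hw, h⟩
  exact ComputablePred.computable_of_manyOneReducible
    (ManyOneReducible.mk (fun Q : QuasiIdentity => HoldsInM F n Q)
      ((Computable.const R).pair hw)) hc

end Pool.Agent.Results.MP_79b5eb_lc.MatrixVarieties
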