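import Mathlib
import Pool.Agent.Run7.h162.Std

/-!
# The equality problem is undecidable in `S(n)` for all `n ≥ 6`

For every field `F` of characteristic zero and every `n ≥ 6` there is no algorithm which decides
whether a quasi-identity holds in all algebras which satisfy the standard identity of degree `n`.
More precisely there is one finite set of equations between monomials (independent of `F` and `n`),
and a computable sequence of equations between monomials, such that it is undecidable for every `F`
and `n ≥ 6` which equations of the sequence follow in `S(n)` from the finite set.

Proof. The relations are those of `MatrixVarieties.lean` (words `e y^m g z^n f` simulate a machine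
with one register). The functional which is one on the words that encode a configuration from which
the machine stops, and zero on the other words, factors through the upper triangular `4 × 4`
matrices over a commutative algebra given by `e = ε E₀₁`, `y = Y E₁₁`, `g = t_g E₁₂`, `z = Z E₂₂`,
`f = E₂₃`. The values of the polynomials without constant term are upper triangular matrices whose
first and last diagonal entries are zero; these satisfy the standard identity of degree six (and
more), because a path through six different edges of the quiver with the vertices `0, 1, 2, 3`, the
edges `i → j`, `i < j`, and the loops at `1` and `2` does not exist. So the algebra without unit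
generated by the letters modulo the greatest ideal in the kernel of the functional is in `S(n)`.

Definitions: `Pool/Agent/Run7/h162/Defs.lean`.
-/

set_option autoImplicit false

namespace Pool.Agent.Results.MP_79b5eb_lc.StandardIdentity

open Run7.h162.EqPb

universe u

/-- **The equality problem in `S(n)` is undecidable for all `n ≥ 6`**, already for quasi-identities
with a fixed list `R` of premises. -/
theorem result :
    (∀ (F : Type u) [Field F] [CharZero F] (n : ℕ), 6 ≤ n →
      ¬ ComputablePred fun Q : QuasiIdentity => HoldsInS F n Q) ∧
    ∃ (R : List QPoly) (w : ℕ → QPoly), Computable w ∧
      ∀ (F : Type u) [Field F] [CharZero F] (n : ℕ), 6 ≤ n →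
        ¬ ComputablePred fun k : ℕ => HoldsInS F n (R, w k) := by
  obtain ⟨R, w, hw, h⟩ := Run7.h162.Std.std_main.{u}
  refine ⟨fun F _ _ n hn hc => h F n hn ?_, R, w, hw, fun F _ _ n hn => h F n hn⟩
  exact ComputablePred.computable_of_manyOneReducible
    (ManyOneReducible.mk (fun Q : QuasiIdentity => HoldsInS F n Q)
      ((Computable.const R).pair hw)) hc

end Pool.Agent.Results.MP_79b5eb_lc.StandardIdentity
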